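import Pool.Agent.H86RT.Fin

/-!
# Class groups of number fields of even degree `d` have unbounded `2d`-rank
-/

set_option autoImplicit false

namespace Pool.Agent.Results.MP_176ace_nt.EvenDegree

open NumberField

/-- For every even `d ≥ 2`, every `m` dividing `2 * d` and every `r` some number field of degree `d`
has a class group containing a subgroup isomorphic to `(ℤ/m)^r`. -/
theorem result :
    ∀ d m : ℕ, 2 ≤ d → Even d → m ∣ 2 * d → ∀ r : ℕ,
      ∃ (K : Type) (_ : Field K) (_ : NumberField K), Module.finrank ℚ K = d ∧
        ∃ f : Multiplicative (Fin r → ZMod m) →* ClassGroup (𝓞 K), Function.Injective f := by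
  intro d m hd he hm
  refine H86RT.main d m (by omega) ?_
  obtain ⟨e, rfl⟩ := he
  have h1 : Nat.gcd (e + e) 2 = 2 := Nat.gcd_eq_right ⟨e, by ring⟩
  rw [h1, mul_comm]
  exact hm

end Pool.Agent.Results.MP_176ace_nt.EvenDegree
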