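import Pool.Agent.W289.CG.Fin
import Pool.Agent.TH665.CG6.Fin

/-!
# Number fields of degree `n` with `m`-rank of the class group at least `r₂ + 6`, for all `m`
-/

set_option autoImplicit false

namespace Pool.Agent.Results.MP_176ace_nt.ExcessSix

open NumberField

/-- Let `n ≥ 46`, or let `n ≥ 24` be even, and let `r` be `⌊n/2⌋` or `0`.  For every `m ≥ 2` there
are number fields of degree `n` with exactly `r` complex places and of arbitrarily large
discriminant whose class group contains `(ℤ/m)^(r+6)`. -/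
theorem result :
    ∀ n r m : ℕ, (46 ≤ n ∨ (24 ≤ n ∧ Even n)) → (r = n / 2 ∨ r = 0) → 2 ≤ m → ∀ N : ℕ,
      ∃ (K : Type) (_ : Field K) (_ : NumberField K), Module.finrank ℚ K = n ∧
        InfinitePlace.nrComplexPlaces K = r ∧ (N : ℤ) < |discr K| ∧
        ∃ f : Multiplicative (Fin (r + 6) → ZMod m) →* ClassGroup (𝓞 K),
          Function.Injective f := by
  intro n r m hn hr hm N
  obtain ⟨⟨K, hK1, hK2, h1, h2, h3, h4⟩, ⟨K', hK1', hK2', h1', h2', h3', h4'⟩⟩ :=
    W289.CG.main n 6 (by omega) (by norm_num) (TH665.CG6.dat6 n hn) m N hm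
  rcases hr with rfl | rfl
  · refine ⟨K, hK1, hK2, h1, ?_, h3, h4⟩
    have h8 := InfinitePlace.card_add_two_mul_card_eq_rank K
    omega
  · refine ⟨K', hK1', hK2', h1', ?_, h3', ?_⟩
    · have h8 := InfinitePlace.card_add_two_mul_card_eq_rank K'
      omega
    · rw [Nat.zero_add]
      exact h4'

end Pool.Agent.Results.MP_176ace_nt.ExcessSix
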