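import Pool.Agent.TH805.CG.Base7

/-!
# Number fields of degree `n ≤ 45` whose class group has large `m`-rank, for all `m`
-/

set_option autoImplicit false

namespace Pool.Agent.Results.MP_176ace_nt.MiddleDegrees

open NumberField

/-- Let `n` be even with `14 ≤ n ≤ 22` or odd with `29 ≤ n ≤ 45` and `κ = 6`, or let `n` be odd
with `11 ≤ n ≤ 27` and `κ = 4`, and let `r` be `⌊n/2⌋` or `0`.  For every `m ≥ 2`
there are number fields of degree `n` with exactly `r` complex places and of arbitrarily large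
discriminant whose class group contains `(ℤ/m)^(r+κ)`. -/
theorem result :
    ∀ n κ r m : ℕ,
      (n ∈ [14, 16, 18, 20, 22, 29, 31, 33, 35, 37, 39, 41, 43, 45] ∧ κ = 6 ∨
        n ∈ [11, 13, 15, 17, 19, 21, 23, 25, 27] ∧ κ = 4) →
      (r = n / 2 ∨ r = 0) → 2 ≤ m → ∀ N : ℕ,
      ∃ (K : Type) (_ : Field K) (_ : NumberField K), Module.finrank ℚ K = n ∧
        InfinitePlace.nrComplexPlaces K = r ∧ (N : ℤ) < |discr K| ∧
        ∃ f : Multiplicative (Fin (r + κ) → ZMod m) →* ClassGroup (𝓞 K),
          Function.Injective f := by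
  intro n κ r m hn hr hm N
  have hD : Nonempty (W289.CG.Dat n κ) := by
    rcases hn with ⟨hn, rfl⟩ | ⟨hn, rfl⟩
    · simp only [List.mem_cons, List.not_mem_nil, or_false] at hn
      by_cases h2 : n % 2 = 0
      · exact TH805.CG6.even6 n (by omega) h2
      · have h6 : n % 6 = 1 ∨ n % 6 = 3 ∨ n % 6 = 5 := by omega
        rcases h6 with h | h | h
        · exact TH805.CG6.odd1 n (by omega) h
        · exact TH805.CG6.odd3 n (by omega) h
        · exact TH805.CG6.odd5 n (by omega) h
    · simp only [List.mem_cons, List.not_mem_nil, or_false] at hn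
      exact TH805.CG4.all4 n (by omega) (by omega)
  have hn3 : 3 ≤ n ∧ 1 ≤ κ := by
    simp only [List.mem_cons, List.not_mem_nil, or_false] at hn
    omega
  obtain ⟨⟨K, hK1, hK2, h1, h2, h3, h4⟩, ⟨K', hK1', hK2', h1', h2', h3', h4'⟩⟩ :=
    W289.CG.main n κ (by omega) hn3.2 hD m N hm
  rcases hr with rfl | rfl
  · refine ⟨K, hK1, hK2, h1, ?_, h3, h4⟩
    have h8 := InfinitePlace.card_add_two_mul_card_eq_rank K
    omega
  · refine ⟨K', hK1', hK2', h1', ?_, h3', ?_⟩
    · have h8 := InfinitePlace.card_add_two_mul_card_eq_rank K'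
      omega
    · rw [Nat.zero_add]
      exact h4'

end Pool.Agent.Results.MP_176ace_nt.MiddleDegrees
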