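import Pool.Agent.H86RT.Fin

/-!
# From unbounded `m`-rank in degree `d` to unbounded `me`-rank in degree `de`
-/

set_option autoImplicit false

namespace Pool.Agent.Results.MP_176ace_nt.RadicalTowers

open NumberField

/-- `S(d, m)`: for every `r` some number field of degree `d` has a class group containing a
subgroup isomorphic to `(ℤ/m)^r`. -/
def UnboundedRank (d m : ℕ) : Prop :=
  ∀ r : ℕ, ∃ (K : Type) (_ : Field K) (_ : NumberField K), Module.finrank ℚ K = d ∧
    ∃ f : Multiplicative (Fin r → ZMod m) →* ClassGroup (𝓞 K), Function.Injective f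

/-- `S(d, m)` implies `S(d * e, n)` for every `e ≥ 1` and every `n` dividing `m * e`. -/
theorem result :
    ∀ d m e n : ℕ, 1 ≤ m → 1 ≤ e → n ∣ m * e → UnboundedRank d m → UnboundedRank (d * e) n :=
  fun d m e n hm he hn h => H86RT.closure d m e n hm he hn h

end Pool.Agent.Results.MP_176ace_nt.RadicalTowers
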